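import Pool.Agent.H539R3.SA.FinU

/-!
A minimal Sullivan algebra of finite type with finite dimensional even part and finite dimensional
even cohomology in which a generator is not nilpotent in its fibre.

Construction. Generators `a, b, c` of degree 2 (cocycles), `u_1, …, u_6` of degree 3 whose
differentials are the six quadratic monomials in `a, b, c`, a generator `x` of degree 4 with
`dx = a u_{bc} + b u_{ca} - 2 c u_{ab}`, and then, degree by degree, finitely many odd generators in
each odd degree at least 5 whose differentials span all the cocycles of the next (even) degree.
Comparing with the Koszul complex of `(a, b, c)^2` over `ℚ[a, b, c, x]` one sees that the polynomial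
part of every cocycle of even degree at least 4 lies in the ideal `(a, b, c)^2`, as the class of
`a e_{bc} + b e_{ca} - 2 c e_{ab}` in the first Koszul homology has annihilator exactly
`(a, b, c)^2`. Hence no power of `x` is a coboundary modulo `a, b, c, u_1, …, u_6`.
-/

set_option autoImplicit false

namespace Pool.Agent.Results.MP_3de1ca_gt.NonNilpotentFibre

open H539R3

/-- There is a minimal Sullivan algebra `(ΛV, d)` over `ℚ` with `V^0 = V^1 = 0`, with a homogeneous
basis `(v i)` of `V` having finitely many elements in each degree and only finitely many elements of
even degree, with `H^even (ΛV, d)` finite dimensional, and such that for some `i` the class of `v i`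
is not nilpotent in the cohomology of the quotient of `(ΛV, d)` by the ideal generated by
`V^{< deg v_i}`. -/
theorem result : ∃ S : MinSullivan, (∀ n : ℕ, {i : S.I | S.deg i = n}.Finite) ∧
    {i : S.I | Even (S.deg i)}.Finite ∧ S.FiniteEvenCohomology ∧
    ∃ i : S.I, ¬ S.NilpotentInFibre i :=
  ⟨SA.SU, SA.SU_fin, SA.SU_even, SA.SU_coh, ⟨SA.G.x, SA.x_mem⟩, SA.SU_not_nilpotent⟩

end Pool.Agent.Results.MP_3de1ca_gt.NonNilpotentFibre
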