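import Pool.Agent.H582SA.Fin2

/-!
# Even-finite minimal Sullivan algebras with a non-nilpotent generator

The algebra is generated by `x, s, s2, v` (degrees 2, 4, 6, 8), `y, z, r, h, r2` (degrees
3, 3, 5, 7, 7), with `dx = dy = 0`, `dz = x^2`, `ds = xy`, `dr = xs - zy`, `ds2 = sy`,
`dh = s^2 - 2ry`, `dr2 = x s2 - ry`, `dv = xh - x r2 - rs + z s2`, and by generators of odd
degree at least 9 that kill all cocycles of even degree at least 10. All powers of `v` survive:
there is a morphism from the whole algebra to `Q[t][x,s,y,r]/(x^2,s^2,sy,y^2,yr,r^2)` with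
`dt = -rs`, `dr = xs`, `ds = xy`, which sends `v` to `t`.
-/

set_option autoImplicit false

namespace Pool.Agent.Results.MP_3de1ca_gt.NotNilpotent

section Defs

variable {ι A : Type} [Ring A] [Algebra ℚ A]

/-- the family `v` satisfies the relations `v_i v_j = (-1)^(deg i * deg j) v_j v_i` -/
def GradedCommute (deg : ι → ℕ) (v : ι → A) : Prop :=
  ∀ i j, v i * v j = ((-1 : ℚ) ^ (deg i * deg j)) • (v j * v i)

/-- `A` is the free graded commutative algebra `ΛV` on the graded vector space `V` with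
homogeneous basis `v_i` (`i : ι`), `v_i` of degree `deg i`: the universal property -/
def IsFreeGC (deg : ι → ℕ) (v : ι → A) : Prop :=
  GradedCommute deg v ∧ ∀ (B : Type) [Ring B] [Algebra ℚ B] (f : ι → B), GradedCommute deg f →
    ∃! φ : A →ₐ[ℚ] B, ∀ i, φ (v i) = f i

/-- the span of the products `v_{i_1} ... v_{i_k}` of the words with property `P` -/
def spanWords (v : ι → A) (P : List ι → Prop) : Submodule ℚ A :=
  Submodule.span ℚ {a | ∃ L : List ι, P L ∧ a = (L.map v).prod}

/-- the homogeneous elements of degree `n` -/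
def homog (deg : ι → ℕ) (v : ι → A) (n : ℕ) : Submodule ℚ A :=
  spanWords v (fun L => (L.map deg).sum = n)

/-- `d` makes `A = ΛV` a minimal Sullivan algebra with `V^1 = 0` -/
structure IsMinimalSullivan (deg : ι → ℕ) (v : ι → A) (d : A →ₗ[ℚ] A) : Prop where
  /-- `A` is `ΛV` -/
  free : IsFreeGC deg v
  /-- all generators have degree at least 2 -/
  two_le : ∀ i, 2 ≤ deg i
  /-- the differential has degree `+1` -/
  degree : ∀ n, ∀ a ∈ homog deg v n, d a ∈ homog deg v (n + 1)
  /-- the Leibniz rule -/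
  leibniz : ∀ n, ∀ a ∈ homog deg v n, ∀ b, d (a * b) = d a * b + ((-1 : ℚ) ^ n) • (a * d b)
  /-- `d ∘ d = 0` -/
  sq : ∀ a, d (d a) = 0
  /-- minimality: `d V ⊆ Λ^{≥2} V` -/
  minimal : ∀ i, d (v i) ∈ spanWords v (fun L => 2 ≤ L.length)

/-- the cocycles of even degree -/
def evenCocycles (deg : ι → ℕ) (v : ι → A) (d : A →ₗ[ℚ] A) : Submodule ℚ A :=
  LinearMap.ker d ⊓ spanWords v (fun L => Even (L.map deg).sum)

/-- the cohomology in even degrees: even cocycles modulo those in the image of `d` -/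
abbrev EvenCohomology (deg : ι → ℕ) (v : ι → A) (d : A →ₗ[ℚ] A) : Type :=
  ↥(evenCocycles deg v d) ⧸ (LinearMap.range d).comap (evenCocycles deg v d).subtype

/-- the two-sided ideal generated by the generators of degree less than `k` -/
def lowIdeal (deg : ι → ℕ) (v : ι → A) (k : ℕ) : Submodule ℚ A :=
  Submodule.span ℚ {c | ∃ (a : A) (j : ι) (b : A), deg j < k ∧ c = a * v j * b}

/-- the class of the generator `v_i` is nilpotent in the cohomology of the quotient
`ΛV^{≥ deg i}` of `ΛV` by the ideal generated by the generators of degree less than `deg i`: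
some power `v_i ^ m`, `m ≥ 1`, is a coboundary in this quotient. -/
def NilpotentClass (deg : ι → ℕ) (v : ι → A) (d : A →ₗ[ℚ] A) (i : ι) : Prop :=
  ∃ m : ℕ, 1 ≤ m ∧ ∃ η : A, v i ^ m - d η ∈ lowIdeal deg v (deg i)

/-- the even cohomology is finite dimensional -/
def FiniteEvenCohomology (deg : ι → ℕ) (v : ι → A) (d : A →ₗ[ℚ] A) : Prop :=
  Module.Finite ℚ (EvenCohomology deg v d)

end Defs

open Pool.H582SA

theorem spanWords_eq (P : List G → Prop) : spanWords g P = spanOf (sg par) P := by
  unfold spanWords spanOf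
  congr 1
  ext a
  constructor
  · rintro ⟨L, hL, rfl⟩; exact ⟨L, hL, rfl⟩
  · rintro ⟨L, hL, rfl⟩; exact ⟨L, hL, rfl⟩

theorem sg_eq (i j : G) : sg par i j = (-1 : ℚ) ^ (dgr i * dgr j) := by
  unfold sg
  apply neg_one_pow_mod
  rw [Nat.mul_mod, Nat.mul_mod (dgr i), dgr_par, dgr_par]

theorem free : IsFreeGC dgr g := by
  refine ⟨fun i j => ?_, ?_⟩
  · rw [← sg_eq]; exact g_comm i j
  · intro B _ _ f hf
    have hf' : ∀ i j, f i * f j = sg par i j • (f j * f i) := by
      intro i j; rw [sg_eq]; exact hf i j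
    refine ⟨lift f hf', fun i => lift_gen f hf' i, ?_⟩
    intro φ hφ
    ext a
    refine FGC.induct (P := fun a => φ a = lift f hf' a) ?_ ?_ ?_ ?_ a
    · intro r; rw [AlgHom.commutes, AlgHom.commutes]
    · intro i; rw [lift_gen]; exact hφ i
    · intro a b h1 h2; rw [map_mul, map_mul, h1, h2]
    · intro a b h1 h2; rw [map_add, map_add, h1, h2]

theorem homog_eq (n : ℕ) : homog dgr g n = Hom n := spanWords_eq _

theorem isMin : IsMinimalSullivan dgr g D := by
  refine ⟨free, dgr_ge, fun n a ha => ?_, fun n a ha b => ?_, D_D, fun i => ?_⟩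
  · rw [homog_eq] at ha ⊢; exact D_Hom ha
  · rw [homog_eq] at ha; exact D_leib ha b
  · rw [spanWords_eq, D_g]; exact Dg_Dec i

theorem finEv : FiniteEvenCohomology dgr g D := by
  have h : evenCocycles dgr g D = LinearMap.ker D ⊓ Ev := by
    unfold evenCocycles
    rw [spanWords_eq]
    rfl
  unfold FiniteEvenCohomology EvenCohomology
  rw [h]
  exact Hev_fin

/-- There is a minimal Sullivan algebra `(ΛV, d)`, with `V` of finite type and `V^1 = 0`, with
`V^even` and `H^even(ΛV, d)` finite dimensional, and a basis element `v_i` of `V` whose class in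
`H(ΛV^{≥ deg v_i})` is not nilpotent. -/
theorem result : ∃ (ι A : Type) (_ : Ring A) (_ : Algebra ℚ A) (deg : ι → ℕ) (v : ι → A)
    (d : A →ₗ[ℚ] A), IsMinimalSullivan deg v d ∧ (∀ n, {i | deg i = n}.Finite) ∧
    {i | Even (deg i)}.Finite ∧ FiniteEvenCohomology deg v d ∧ ∃ i, ¬ NilpotentClass deg v d i := by
  refine ⟨G, E, inferInstance, inferInstance, dgr, g, D, isMin, ?_, fin_even, finEv, .v, ?_⟩
  · intro n
    exact (fin_le n).subset (fun i hi => le_of_eq hi)
  · rintro ⟨m, -, η, h⟩
    exact not_nil m η h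

end Pool.Agent.Results.MP_3de1ca_gt.NotNilpotent
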